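import Pool.Agent.Y210.DL2
set_option autoImplicit false
open MvPolynomial Filter Topology

namespace Pool.Agent.Y210.DL

/-- the squared distance to the cusp, in the parameter -/
noncomputable def ρ (s : ℂ) : ℝ := ‖2 * s + 1 / s ^ 2 - 3‖ ^ 2 + ‖2 / s + s ^ 2 - 3‖ ^ 2

/-- near the cusp in the plane means near `1` in the parameter -/
lemma near (s : ℂ) (hs : s ≠ 0) (h : ρ s < (1 / 1000) ^ 2) : ‖s - 1‖ < 1 / 10 := by
  have ha : ‖2 * s + 1 / s ^ 2 - 3‖ ≤ 1 / 1000 := by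
    apply le_of_sq_le_sq _ (by norm_num)
    have := sq_nonneg ‖2 / s + s ^ 2 - 3‖
    have h' := h.le
    rw [ρ] at h'
    linarith
  have hb : ‖2 / s + s ^ 2 - 3‖ ≤ 1 / 1000 := by
    apply le_of_sq_le_sq _ (by norm_num)
    have := sq_nonneg ‖2 * s + 1 / s ^ 2 - 3‖
    have h' := h.le
    rw [ρ] at h'
    linarith
  obtain ⟨a, haa⟩ : ∃ a, a = 2 * s + 1 / s ^ 2 - 3 := ⟨_, rfl⟩
  obtain ⟨b, hbb⟩ : ∃ b, b = 2 / s + s ^ 2 - 3 := ⟨_, rfl⟩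
  rw [← haa] at ha
  rw [← hbb] at hb
  have hq : (3 * (s - 1) - a) ^ 2 = 6 * a + a ^ 2 - 3 * b := by
    rw [haa, hbb]
    field_simp
    ring
  have hn : ‖3 * (s - 1) - a‖ ^ 2 ≤ (1 / 10) ^ 2 := by
    rw [← norm_pow, hq]
    calc ‖6 * a + a ^ 2 - 3 * b‖ ≤ ‖6 * a‖ + ‖a ^ 2‖ + ‖3 * b‖ :=
          (norm_sub_le _ _).trans (add_le_add_left (norm_add_le _ _) _)
      _ = 6 * ‖a‖ + ‖a‖ ^ 2 + 3 * ‖b‖ := by
          rw [norm_mul, norm_pow, norm_mul]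
          norm_num
      _ ≤ (1 / 10) ^ 2 := by nlinarith [norm_nonneg a]
  have hn' : ‖3 * (s - 1) - a‖ ≤ 1 / 10 := le_of_sq_le_sq hn (by norm_num)
  have : ‖3 * (s - 1)‖ ≤ 1 / 10 + 1 / 1000 := by
    calc ‖3 * (s - 1)‖ = ‖(3 * (s - 1) - a) + a‖ := by congr 1; ring
      _ ≤ ‖3 * (s - 1) - a‖ + ‖a‖ := norm_add_le _ _
      _ ≤ _ := add_le_add hn' ha
  rw [norm_mul] at this
  norm_num at this
  linarith

lemma ρ_eq (u : ℂ) (hu : ‖u‖ < 1 / 10) : ρ (1 + u) =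
    (‖u‖ ^ 2 * ‖3 + 2 * u‖ / ‖1 + u‖ ^ 2) ^ 2 + (‖u‖ ^ 2 * ‖3 + u‖ / ‖1 + u‖) ^ 2 := by
  have h1 : 1 + u ≠ 0 := by
    intro h
    have : u = -1 := by linear_combination h
    rw [this, norm_neg, norm_one] at hu
    norm_num at hu
  have e1 : 2 * (1 + u) + 1 / (1 + u) ^ 2 - 3 = u ^ 2 * (3 + 2 * u) / (1 + u) ^ 2 := by
    field_simp
    ring
  have e2 : 2 / (1 + u) + (1 + u) ^ 2 - 3 = u ^ 2 * (3 + u) / (1 + u) := by
    field_simp
    ring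
  rw [ρ, e1, e2]
  simp only [norm_div, norm_mul, norm_pow]

/-- the squared distance decreases along the rays towards the cusp -/
lemma radial (u : ℂ) (hu : ‖u‖ < 1 / 10) (l : ℝ) (hl0 : 0 ≤ l) (hl1 : l ≤ 1) :
    ρ (1 + l * u) ≤ ρ (1 + u) := by
  have hlu : ‖(l : ℂ) * u‖ = l * ‖u‖ := by
    rw [norm_mul, Complex.norm_real, Real.norm_of_nonneg hl0]
  have hlu' : ‖(l : ℂ) * u‖ < 1 / 10 := by
    rw [hlu]
    nlinarith [norm_nonneg u]
  rw [ρ_eq u hu, ρ_eq _ hlu', hlu]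
  have hN := norm_nonneg u
  -- the elementary estimates
  have a1 : (28 / 10 : ℝ) ≤ ‖3 + 2 * u‖ := by
    have h1 : ‖(3 : ℂ)‖ ≤ ‖3 + 2 * u‖ + ‖2 * u‖ := by
      calc ‖(3 : ℂ)‖ = ‖(3 + 2 * u) - 2 * u‖ := by congr 1; ring
        _ ≤ _ := norm_sub_le _ _
    rw [norm_mul] at h1
    norm_num at h1
    linarith
  have a2 : ‖3 + 2 * (l * u)‖ ≤ ‖3 + 2 * u‖ + 2 * (1 - l) * ‖u‖ := by
    calc ‖3 + 2 * (l * u)‖ = ‖(3 + 2 * u) - ((2 * (1 - l) : ℝ) : ℂ) * u‖ := by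
          congr 1; push_cast; ring
      _ ≤ ‖3 + 2 * u‖ + ‖((2 * (1 - l) : ℝ) : ℂ) * u‖ := norm_sub_le _ _
      _ = _ := by rw [norm_mul, Complex.norm_real, Real.norm_of_nonneg (by linarith)]
  have a3 : (9 / 10 : ℝ) ≤ ‖1 + (l : ℂ) * u‖ := by
    have h1 : ‖(1 : ℂ)‖ ≤ ‖1 + (l : ℂ) * u‖ + ‖(l : ℂ) * u‖ := by
      calc ‖(1 : ℂ)‖ = ‖(1 + (l : ℂ) * u) - (l : ℂ) * u‖ := by congr 1; ring
        _ ≤ _ := norm_sub_le _ _
    rw [norm_one] at h1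
    linarith
  have a4 : ‖1 + u‖ ≤ ‖1 + (l : ℂ) * u‖ + (1 - l) * ‖u‖ := by
    calc ‖1 + u‖ = ‖(1 + (l : ℂ) * u) + ((1 - l : ℝ) : ℂ) * u‖ := by
          congr 1; push_cast; ring
      _ ≤ ‖1 + (l : ℂ) * u‖ + ‖((1 - l : ℝ) : ℂ) * u‖ := norm_add_le _ _
      _ = _ := by rw [norm_mul, Complex.norm_real, Real.norm_of_nonneg (by linarith)]
  have a5 : (29 / 10 : ℝ) ≤ ‖3 + u‖ := by
    have h1 : ‖(3 : ℂ)‖ ≤ ‖3 + u‖ + ‖u‖ := by
      calc ‖(3 : ℂ)‖ = ‖(3 + u) - u‖ := by congr 1; ring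
        _ ≤ _ := norm_sub_le _ _
    norm_num at h1
    linarith
  have a6 : ‖3 + (l : ℂ) * u‖ ≤ ‖3 + u‖ + (1 - l) * ‖u‖ := by
    calc ‖3 + (l : ℂ) * u‖ = ‖(3 + u) - ((1 - l : ℝ) : ℂ) * u‖ := by
          congr 1; push_cast; ring
      _ ≤ ‖3 + u‖ + ‖((1 - l : ℝ) : ℂ) * u‖ := norm_sub_le _ _
      _ = _ := by rw [norm_mul, Complex.norm_real, Real.norm_of_nonneg (by linarith)]
  have a7 : (9 / 10 : ℝ) ≤ ‖1 + u‖ := by
    have h1 : ‖(1 : ℂ)‖ ≤ ‖1 + u‖ + ‖u‖ := by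
      calc ‖(1 : ℂ)‖ = ‖(1 + u) - u‖ := by congr 1; ring
        _ ≤ _ := norm_sub_le _ _
    rw [norm_one] at h1
    linarith
  set m : ℝ := 1 - l with hm
  have hm0 : 0 ≤ m := by linarith
  have hm1 : m ≤ 1 := by linarith
  have hmu : m * ‖u‖ ≤ m / 10 := by nlinarith
  set P := ‖3 + 2 * u‖
  set Q := ‖1 + (l : ℂ) * u‖
  set R := ‖3 + u‖
  have b1 : ‖3 + 2 * (l * u)‖ ≤ P * (1 + m / 10) := by nlinarith
  have b2 : ‖1 + u‖ ≤ Q * (1 + m / 8) := by nlinarith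
  have b3 : ‖3 + (l : ℂ) * u‖ ≤ R * (1 + m / 10) := by nlinarith
  have hP : 0 < P := by linarith
  have hQ : 0 < Q := by linarith
  have hR : 0 < R := by linarith
  have c1 : l ^ 2 * ((1 + m / 10) * (1 + m / 8) ^ 2) ≤ 1 := by
    have hl : l = 1 - m := by linarith
    have k1 : (1 + m / 10) * (1 + m / 8) ^ 2 ≤ 1 + m := by
      nlinarith [mul_nonneg hm0 hm0, mul_nonneg (mul_nonneg hm0 hm0) hm0]
    have k2 : l * (1 + m) ≤ 1 := by rw [hl]; nlinarith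
    calc l ^ 2 * ((1 + m / 10) * (1 + m / 8) ^ 2) ≤ l ^ 2 * (1 + m) :=
          mul_le_mul_of_nonneg_left k1 (sq_nonneg l)
      _ = l * (l * (1 + m)) := by ring
      _ ≤ l * 1 := mul_le_mul_of_nonneg_left k2 hl0
      _ ≤ 1 := by linarith
  have c2 : l ^ 2 * ((1 + m / 10) * (1 + m / 8)) ≤ 1 := by
    refine le_trans ?_ c1
    apply mul_le_mul_of_nonneg_left _ (sq_nonneg l)
    apply mul_le_mul_of_nonneg_left _ (by positivity)
    nlinarith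
  have d1 : (l * ‖u‖) ^ 2 * ‖3 + 2 * (l * u)‖ / Q ^ 2 ≤ ‖u‖ ^ 2 * P / ‖1 + u‖ ^ 2 := by
    rw [div_le_div_iff₀ (by positivity) (by positivity)]
    calc (l * ‖u‖) ^ 2 * ‖3 + 2 * (l * u)‖ * ‖1 + u‖ ^ 2
        ≤ (l * ‖u‖) ^ 2 * (P * (1 + m / 10)) * (Q * (1 + m / 8)) ^ 2 := by
          gcongr
      _ = (‖u‖ ^ 2 * P * Q ^ 2) * (l ^ 2 * ((1 + m / 10) * (1 + m / 8) ^ 2)) := by ring
      _ ≤ (‖u‖ ^ 2 * P * Q ^ 2) * 1 := mul_le_mul_of_nonneg_left c1 (by positivity)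
      _ = ‖u‖ ^ 2 * P * Q ^ 2 := mul_one _
  have d2 : (l * ‖u‖) ^ 2 * ‖3 + (l : ℂ) * u‖ / Q ≤ ‖u‖ ^ 2 * R / ‖1 + u‖ := by
    rw [div_le_div_iff₀ (by positivity) (by positivity)]
    calc (l * ‖u‖) ^ 2 * ‖3 + (l : ℂ) * u‖ * ‖1 + u‖
        ≤ (l * ‖u‖) ^ 2 * (R * (1 + m / 10)) * (Q * (1 + m / 8)) := by
          gcongr
      _ = (‖u‖ ^ 2 * R * Q) * (l ^ 2 * ((1 + m / 10) * (1 + m / 8))) := by ring
      _ ≤ (‖u‖ ^ 2 * R * Q) * 1 := mul_le_mul_of_nonneg_left c2 (by positivity)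
      _ = ‖u‖ ^ 2 * R * Q := mul_one _
  gcongr

/-- the punctured neighbourhoods of the cusp, in the parameter -/
def A (δ : ℝ) : Set ℂ := {s | s ≠ 0 ∧ s ≠ 1 ∧ ρ s < δ ^ 2}

lemma ρ_one : ρ 1 = 0 := by
  rw [ρ]
  norm_num

lemma continuousAt_ρ : ContinuousAt ρ 1 := by
  have h1 : ContinuousAt (fun s : ℂ => 2 * s + 1 / s ^ 2 - 3) 1 := by
    refine ((continuousAt_const.mul continuousAt_id).add
      (continuousAt_const.div (continuousAt_id.pow 2) ?_)).sub continuousAt_const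
    norm_num
  have h2 : ContinuousAt (fun s : ℂ => 2 / s + s ^ 2 - 3) 1 := by
    refine ((continuousAt_const.div continuousAt_id ?_).add
      (continuousAt_id.pow 2)).sub continuousAt_const
    norm_num
  exact (h1.norm.pow 2).add (h2.norm.pow 2)

lemma isPreconnected_A (δ : ℝ) (hδ0 : 0 < δ) (hδ : δ < 1 / 1000) : IsPreconnected (A δ) := by
  -- a small punctured disc lies in `A δ`
  obtain ⟨r, hr0, hr⟩ : ∃ r > 0, ∀ s : ℂ, ‖s - 1‖ < r → ρ s < δ ^ 2 := by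
    have h1 := continuousAt_ρ.tendsto
    rw [ρ_one] at h1
    have h2 : ∀ᶠ s in 𝓝 (1 : ℂ), ρ s < δ ^ 2 := h1.eventually (gt_mem_nhds (by positivity))
    obtain ⟨r, hr0, hr⟩ := Metric.eventually_nhds_iff.1 h2
    exact ⟨r, hr0, fun s hs => hr (by rwa [dist_eq_norm])⟩
  set r₁ : ℝ := min (r / 2) (1 / 20) with hr₁
  have hr₁0 : 0 < r₁ := lt_min (by linarith) (by norm_num)
  have hr₁r : r₁ < r := lt_of_le_of_lt (min_le_left _ _) (by linarith)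
  have hr₁t : r₁ < 1 / 10 := lt_of_le_of_lt (min_le_right _ _) (by norm_num)
  have hne0 : ∀ u : ℂ, ‖u‖ < 1 / 10 → 1 + u ≠ 0 := by
    intro u hu h
    have : u = -1 := by linear_combination h
    rw [this, norm_neg, norm_one] at hu
    norm_num at hu
  have hsph : Metric.sphere (1 : ℂ) r₁ ⊆ A δ := by
    intro s hs
    have hs' : ‖s - 1‖ = r₁ := by simpa [dist_eq_norm] using hs
    refine ⟨?_, ?_, hr s (by rw [hs']; exact hr₁r)⟩
    · have := hne0 (s - 1) (by rw [hs']; exact hr₁t)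
      simpa using this
    · rintro rfl
      simp at hs'
      exact hr₁0.ne hs'
  have hcs : IsPreconnected (Metric.sphere (1 : ℂ) r₁) := by
    apply isPreconnected_sphere
    rw [Complex.rank_real_complex]
    norm_num
  apply isPreconnected_of_forall (1 + (r₁ : ℂ))
  intro y hy
  obtain ⟨hy0, hy1, hyρ⟩ := hy
  have hynear : ‖y - 1‖ < 1 / 10 := near y hy0 (hyρ.trans (by gcongr))
  set u : ℂ := y - 1 with hu
  have hu0 : 0 < ‖u‖ := norm_pos_iff.2 (sub_ne_zero.2 hy1)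
  have hyu : y = 1 + u := by rw [hu]; ring
  -- the radial segment
  let γ : ℝ → ℂ := fun a => 1 + (a : ℂ) * u
  have hγc : Continuous γ :=
    continuous_const.add (Complex.continuous_ofReal.mul continuous_const)
  set l₀ : ℝ := r₁ / ‖u‖ with hl₀
  have hl₀0 : 0 < l₀ := div_pos hr₁0 hu0
  have hseg : γ '' Set.uIcc l₀ 1 ⊆ A δ := by
    rintro _ ⟨a, ha, rfl⟩
    have ha0 : 0 < a := lt_of_lt_of_le (lt_min hl₀0 one_pos) ha.1
    have hau : ‖(a : ℂ) * u‖ = a * ‖u‖ := by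
      rw [norm_mul, Complex.norm_real, Real.norm_of_nonneg ha0.le]
    have ha1 : γ a ≠ 1 := by
      intro h
      have h1 : (a : ℂ) * u = 0 := by
        have : 1 + (a : ℂ) * u = 1 := h
        linear_combination this
      rw [h1, norm_zero] at hau
      nlinarith [mul_pos ha0 hu0]
    have hcase : a * ‖u‖ ≤ r₁ ∨ a ≤ 1 := by
      rcases le_max_iff.1 ha.2 with h | h
      · left
        calc a * ‖u‖ ≤ l₀ * ‖u‖ := by gcongr
          _ = r₁ := by rw [hl₀]; field_simp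
      · right; exact h
    have hau' : ‖(a : ℂ) * u‖ < 1 / 10 := by
      rw [hau]
      rcases hcase with h | h
      · linarith
      · nlinarith
    refine ⟨hne0 _ hau', ha1, ?_⟩
    rcases hcase with h | h
    · apply hr
      have : γ a - 1 = (a : ℂ) * u := by simp [γ]
      rw [this, hau]
      linarith
    · have := radial u hynear a ha0.le h
      rw [← hyu] at this
      exact lt_of_le_of_lt this hyρ
  have hpt : γ l₀ ∈ Metric.sphere (1 : ℂ) r₁ := by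
    rw [mem_sphere_iff_norm]
    have : γ l₀ - 1 = (l₀ : ℂ) * u := by simp [γ]
    rw [this, norm_mul, Complex.norm_real, Real.norm_of_nonneg hl₀0.le, hl₀]
    field_simp
  refine ⟨Metric.sphere (1 : ℂ) r₁ ∪ γ '' Set.uIcc l₀ 1, Set.union_subset hsph hseg, ?_, ?_, ?_⟩
  · left
    simp [abs_of_pos hr₁0]
  · right
    exact ⟨1, Set.right_mem_uIcc, by simp [γ, hyu]⟩
  · exact hcs.union (γ l₀) hpt ⟨l₀, Set.left_mem_uIcc, rfl⟩
      ((isPreconnected_uIcc).image γ hγc.continuousOn)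

end Pool.Agent.Y210.DL
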