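import Pool.Agent.Y210.DL3
import Pool.Agent.Y210.DL4
set_option autoImplicit false
open MvPolynomial Filter Topology

namespace Pool.Agent.Y210.DL

/-- the cusp with parameter `t`, where `t ^ 3 = 1` -/
noncomputable def cusp (t : ℂ) : Fin 2 → ℂ := ![3 * t, 3 * t ^ 2]

lemma par_cusp (t : ℂ) (ht : t ^ 3 = 1) (s : ℂ) (hs : s ≠ 0) :
    par (t * s) 0 - cusp t 0 = t * (2 * s + 1 / s ^ 2 - 3) ∧
    par (t * s) 1 - cusp t 1 = t ^ 2 * (2 / s + s ^ 2 - 3) := by
  have ht0 : t ≠ 0 := by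
    rintro rfl
    norm_num at ht
  have h1 : 1 / t ^ 2 = t := by
    field_simp
    linear_combination (-1 : ℂ) * ht
  have h2 : 1 / t = t ^ 2 := by
    field_simp
    linear_combination (-1 : ℂ) * ht
  constructor
  · change 2 * (t * s) + 1 / (t * s) ^ 2 - 3 * t = _
    have : 1 / (t * s) ^ 2 = (1 / t ^ 2) * (1 / s ^ 2) := by
      field_simp
    rw [this, h1]
    ring
  · change 2 / (t * s) + (t * s) ^ 2 - 3 * t ^ 2 = _
    have : 2 / (t * s) = (1 / t) * (2 / s) := by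
      field_simp
    rw [this, h2]
    ring

lemma par_one (t : ℂ) (ht : t ^ 3 = 1) : par t = cusp t := by
  have h := par_cusp t ht 1 one_ne_zero
  rw [mul_one] at h
  funext i
  fin_cases i
  · have := h.1
    norm_num at this
    change par t 0 = cusp t 0
    linear_combination this
  · have := h.2
    norm_num at this
    change par t 1 = cusp t 1
    linear_combination this

lemma norm_root (t : ℂ) (ht : t ^ 3 = 1) : ‖t‖ = 1 := by
  have h : ‖t‖ ^ 3 = 1 := by rw [← norm_pow, ht, norm_one]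
  exact (pow_eq_one_iff_of_nonneg (norm_nonneg t) (by norm_num)).1 h

/-- the punctured neighbourhoods of the cusps are connected -/
lemma unibranch (t : ℂ) (ht : t ^ 3 = 1) (δ : ℝ) (hδ0 : 0 < δ) (hδ : δ < 1 / 1000) :
    IsPreconnected {q : Fin 2 → ℂ | eval q F = 0 ∧ q ≠ cusp t ∧
      ‖q 0 - cusp t 0‖ ^ 2 + ‖q 1 - cusp t 1‖ ^ 2 < δ ^ 2} := by
  have ht0 : t ≠ 0 := by
    rintro rfl
    norm_num at ht
  have hn := norm_root t ht
  have hρ : ∀ s : ℂ, s ≠ 0 →
      ‖par (t * s) 0 - cusp t 0‖ ^ 2 + ‖par (t * s) 1 - cusp t 1‖ ^ 2 = ρ s := by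
    intro s hs
    obtain ⟨h0, h1⟩ := par_cusp t ht s hs
    rw [h0, h1, norm_mul, norm_mul, norm_pow, hn, ρ]
    ring
  have himg : {q : Fin 2 → ℂ | eval q F = 0 ∧ q ≠ cusp t ∧
      ‖q 0 - cusp t 0‖ ^ 2 + ‖q 1 - cusp t 1‖ ^ 2 < δ ^ 2} = (fun s => par (t * s)) '' A δ := by
    ext q
    constructor
    · rintro ⟨hq, hne, hd⟩
      obtain ⟨a, ha, rfl⟩ := par_surj q hq
      have hta : t * (a / t) = a := by field_simp
      have hat : a / t ≠ 0 := div_ne_zero ha ht0
      refine ⟨a / t, ⟨hat, ?_, ?_⟩, ?_⟩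
      · intro h1
        apply hne
        rw [← par_one t ht]
        congr 1
        rw [h1, mul_one] at hta
        exact hta.symm
      · rw [← hρ _ hat, hta]
        exact hd
      · simp only [hta]
    · rintro ⟨s, ⟨hs0, hs1, hs⟩, rfl⟩
      refine ⟨par_mem _ (mul_ne_zero ht0 hs0), ?_, ?_⟩
      · intro h
        simp only at h
        rw [← par_one t ht] at h
        have := par_inj _ _ (mul_ne_zero ht0 hs0) ht0 h
        apply hs1
        field_simp at this
        exact this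
      · simp only
        rw [hρ s hs0]
        exact hs
  rw [himg]
  apply (isPreconnected_A δ hδ0 hδ).image
  intro s hs
  have hs0 : t * s ≠ 0 := mul_ne_zero ht0 hs.1
  apply ContinuousAt.continuousWithinAt
  rw [continuousAt_pi]
  intro i
  have hc : ContinuousAt (fun s : ℂ => t * s) s := continuousAt_const.mul continuousAt_id
  fin_cases i
  · change ContinuousAt (fun s => 2 * (t * s) + 1 / (t * s) ^ 2) s
    exact (continuousAt_const.mul hc).add (continuousAt_const.div (hc.pow 2) (pow_ne_zero 2 hs0))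
  · change ContinuousAt (fun s => 2 / (t * s) + (t * s) ^ 2) s
    exact (continuousAt_const.div hc hs0).add (hc.pow 2)

lemma eval_pderiv (z : Fin 2 → ℂ) :
    eval z (pderiv 0 F) = 2 * z 0 * z 1 ^ 2 - 12 * z 0 ^ 2 + 18 * z 1 ∧
    eval z (pderiv 1 F) = 2 * z 0 ^ 2 * z 1 - 12 * z 1 ^ 2 + 18 * z 0 := by
  have h4 : (4 : MvPolynomial (Fin 2) ℂ) = C 4 := (map_ofNat C 4).symm
  have h18 : (18 : MvPolynomial (Fin 2) ℂ) = C 18 := (map_ofNat C 18).symm
  have h27 : (27 : MvPolynomial (Fin 2) ℂ) = C 27 := (map_ofNat C 27).symm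
  have e01 : pderiv (0 : Fin 2) (X 1 : MvPolynomial (Fin 2) ℂ) = 0 :=
    pderiv_X_of_ne (by decide)
  have e10 : pderiv (1 : Fin 2) (X 0 : MvPolynomial (Fin 2) ℂ) = 0 :=
    pderiv_X_of_ne (by decide)
  constructor
  · rw [F, h4, h18, h27]
    simp only [map_sub, map_add, pderiv_mul, pderiv_pow, pderiv_C, pderiv_X_self, e01,
      eval_X, eval_C, map_mul, map_pow, map_zero, map_one, map_natCast]
    push_cast
    ring
  · rw [F, h4, h18, h27]
    simp only [map_sub, map_add, pderiv_mul, pderiv_pow, pderiv_C, pderiv_X_self, e10,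
      eval_X, eval_C, map_mul, map_pow, map_zero, map_one, map_natCast]
    push_cast
    ring

/-- the singular points are the cusps -/
lemma singular_iff (z : Fin 2 → ℂ) :
    (eval z F = 0 ∧ ∀ i : Fin 2, eval z (pderiv i F) = 0) ↔ ∃ t : ℂ, t ^ 3 = 1 ∧ z = cusp t := by
  constructor
  · rintro ⟨h0, h1⟩
    have hx := h1 0
    have hy := h1 1
    rw [(eval_pderiv z).1] at hx
    rw [(eval_pderiv z).2] at hy
    obtain ⟨t, ht, rfl⟩ := par_surj z h0
    have e0 : par t 0 = 2 * t + 1 / t ^ 2 := rfl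
    have e1 : par t 1 = 2 / t + t ^ 2 := rfl
    -- `∂F/∂x` at the point with parameter `t` is `4 (t³ - 1)³ / t⁴`
    have hx' : (t ^ 3 - 1) ^ 3 = 0 := by
      rw [e0, e1] at hx
      field_simp at hx
      linear_combination (1 / 4 : ℂ) * hx
    have ht3 : t ^ 3 = 1 := by
      have := pow_eq_zero_iff (n := 3) (by norm_num) |>.1 hx'
      linear_combination this
    exact ⟨t, ht3, par_one t ht3⟩
  · rintro ⟨t, ht, rfl⟩
    have hc0 : cusp t 0 = 3 * t := rfl
    have hc1 : cusp t 1 = 3 * t ^ 2 := rfl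
    refine ⟨?_, ?_⟩
    · rw [eval_F, hc0, hc1]
      linear_combination (81 * t ^ 3 - 108 * t ^ 3 + 27) * ht
    · intro i
      fin_cases i
      · change eval (cusp t) (pderiv 0 F) = 0
        rw [(eval_pderiv _).1, hc0, hc1]
        linear_combination (54 * t ^ 2) * ht
      · change eval (cusp t) (pderiv 1 F) = 0
        rw [(eval_pderiv _).2, hc0, hc1]
        linear_combination (-54 * t) * ht

/-- three cube roots of unity -/
lemma exists_roots : ∃ w : ℂ, w ^ 3 = 1 ∧ w ≠ 1 ∧ w ^ 2 ≠ 1 ∧ w ^ 2 ≠ w := by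
  have h := Complex.isPrimitiveRoot_exp 3 (by norm_num)
  set w := Complex.exp (2 * Real.pi * Complex.I / ((3 : ℕ) : ℂ)) with hw
  have h1 : w ≠ 1 := h.ne_one (by norm_num)
  have h2 : w ^ 2 ≠ 1 := h.pow_ne_one_of_pos_of_lt (by norm_num) (by norm_num)
  refine ⟨w, h.pow_eq_one, h1, h2, ?_⟩
  intro h3
  have hw0 : w ≠ 0 := Complex.exp_ne_zero _
  apply h1
  have : w * w = w * 1 := by rw [mul_one, ← sq]; exact h3
  exact mul_left_cancel₀ hw0 this

lemma cusp_inj {a b : ℂ} (h : cusp a = cusp b) : a = b := by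
  have := congrFun h 0
  change 3 * a = 3 * b at this
  exact mul_left_cancel₀ (by norm_num) this

/-- the set of unibranch singular points has three elements -/
lemma three_le : 3 ≤ Set.ncard {p : Fin 2 → ℂ | eval p F = 0 ∧
        (∀ i : Fin 2, eval p (pderiv i F) = 0) ∧
        ∃ ε : ℝ, 0 < ε ∧ ∀ δ : ℝ, 0 < δ → δ < ε →
          IsPreconnected {q : Fin 2 → ℂ | eval q F = 0 ∧ q ≠ p ∧
            ‖q 0 - p 0‖ ^ 2 + ‖q 1 - p 1‖ ^ 2 < δ ^ 2}} := by
  set S := {p : Fin 2 → ℂ | eval p F = 0 ∧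
        (∀ i : Fin 2, eval p (pderiv i F) = 0) ∧
        ∃ ε : ℝ, 0 < ε ∧ ∀ δ : ℝ, 0 < δ → δ < ε →
          IsPreconnected {q : Fin 2 → ℂ | eval q F = 0 ∧ q ≠ p ∧
            ‖q 0 - p 0‖ ^ 2 + ‖q 1 - p 1‖ ^ 2 < δ ^ 2}} with hS
  have hmem : ∀ t : ℂ, t ^ 3 = 1 → cusp t ∈ S := by
    intro t ht
    obtain ⟨h1, h2⟩ := (singular_iff (cusp t)).2 ⟨t, ht, rfl⟩
    exact ⟨h1, h2, 1 / 1000, by norm_num, fun δ hδ0 hδ => unibranch t ht δ hδ0 hδ⟩
  have hfin : S.Finite := by
    have h1 : {t : ℂ | t ^ 3 = 1}.Finite := by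
      have h2 : ((Polynomial.X ^ 3 - Polynomial.C 1 : Polynomial ℂ)) ≠ 0 :=
        Polynomial.X_pow_sub_C_ne_zero (by norm_num) 1
      refine (Polynomial.finite_setOf_isRoot h2).subset ?_
      intro t ht
      simp only [Set.mem_setOf_eq] at ht ⊢
      simp [Polynomial.IsRoot, ht]
    refine (h1.image cusp).subset ?_
    rintro p ⟨hp1, hp2, -⟩
    obtain ⟨t, ht, rfl⟩ := (singular_iff p).1 ⟨hp1, hp2⟩
    exact ⟨t, ht, rfl⟩
  obtain ⟨w, hw3, hw1, hw2, hw⟩ := exists_roots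
  have hsub : ({cusp 1, cusp w, cusp (w ^ 2)} : Set (Fin 2 → ℂ)) ⊆ S := by
    intro p hp
    rcases hp with rfl | rfl | rfl
    · exact hmem 1 (by norm_num)
    · exact hmem w hw3
    · exact hmem (w ^ 2) (by rw [← pow_mul, mul_comm, pow_mul, hw3, one_pow])
  have hcard : ({cusp 1, cusp w, cusp (w ^ 2)} : Set (Fin 2 → ℂ)).ncard = 3 := by
    rw [Set.ncard_eq_three]
    refine ⟨cusp 1, cusp w, cusp (w ^ 2), ?_, ?_, ?_, rfl⟩
    · intro h
      exact hw1 (cusp_inj h).symm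
    · intro h
      exact hw2 (cusp_inj h).symm
    · intro h
      exact hw (cusp_inj h).symm
  rw [← hcard]
  exact Set.ncard_le_ncard hsub hfin

end Pool.Agent.Y210.DL
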