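import Mathlib
set_option autoImplicit false
open MvPolynomial

namespace Pool.Agent.Y210.DL

/-- the affine tricuspidal quartic, the discriminant of `T³ - x T² + y T - 1` -/
noncomputable def F : MvPolynomial (Fin 2) ℂ :=
  X 0 ^ 2 * X 1 ^ 2 - 4 * X 0 ^ 3 - 4 * X 1 ^ 3 + 18 * X 0 * X 1 - 27

lemma eval_F (z : Fin 2 → ℂ) : eval z F =
    z 0 ^ 2 * z 1 ^ 2 - 4 * z 0 ^ 3 - 4 * z 1 ^ 3 + 18 * z 0 * z 1 - 27 := by
  have h4 : (4 : MvPolynomial (Fin 2) ℂ) = C 4 := (map_ofNat C 4).symm
  have h18 : (18 : MvPolynomial (Fin 2) ℂ) = C 18 := (map_ofNat C 18).symm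
  have h27 : (27 : MvPolynomial (Fin 2) ℂ) = C 27 := (map_ofNat C 27).symm
  rw [F, h4, h18, h27]
  simp

/-- the parametrization -/
noncomputable def par (t : ℂ) : Fin 2 → ℂ := ![2 * t + 1 / t ^ 2, 2 / t + t ^ 2]

lemma par_mem (t : ℂ) (ht : t ≠ 0) : eval (par t) F = 0 := by
  rw [eval_F]
  simp only [par, Matrix.cons_val_zero, Matrix.cons_val_one]
  field_simp
  ring

lemma par_surj (z : Fin 2 → ℂ) (hz : eval z F = 0) : ∃ t : ℂ, t ≠ 0 ∧ par t = z := by
  rw [eval_F] at hz
  set x := z 0
  set y := z 1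
  -- a root of the cubic
  obtain ⟨a, ha⟩ : ∃ a : ℂ, a ^ 3 - x * a ^ 2 + y * a - 1 = 0 := by
    obtain ⟨a, ha⟩ := IsAlgClosed.exists_root
      (Polynomial.X ^ 3 - Polynomial.C x * Polynomial.X ^ 2 + Polynomial.C y * Polynomial.X -
        Polynomial.C 1 : Polynomial ℂ) (by
          have : (Polynomial.X ^ 3 - Polynomial.C x * Polynomial.X ^ 2 +
            Polynomial.C y * Polynomial.X - Polynomial.C 1 : Polynomial ℂ).degree = 3 := by
            compute_degree!
          rw [this]
          norm_num)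
    refine ⟨a, ?_⟩
    simpa [Polynomial.IsRoot] using ha
  obtain ⟨b, hb⟩ : ∃ b : ℂ, b ^ 2 - (x - a) * b + (y - (x - a) * a) = 0 := by
    obtain ⟨b, hb⟩ := IsAlgClosed.exists_root
      (Polynomial.X ^ 2 - Polynomial.C (x - a) * Polynomial.X +
        Polynomial.C (y - (x - a) * a) : Polynomial ℂ) (by
          have : (Polynomial.X ^ 2 - Polynomial.C (x - a) * Polynomial.X +
            Polynomial.C (y - (x - a) * a) : Polynomial ℂ).degree = 2 := by
            compute_degree!
          rw [this]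
          norm_num)
    refine ⟨b, ?_⟩
    simpa [Polynomial.IsRoot] using hb
  obtain ⟨c, hc⟩ : ∃ c : ℂ, c = x - a - b := ⟨_, rfl⟩
  have e1 : x = a + b + c := by rw [hc]; ring
  have e2 : y = a * b + b * c + c * a := by
    have : y = (x - a) * a + (x - a) * b - b ^ 2 := by linear_combination hb
    rw [this, e1]; ring
  have e3 : a * b * c = 1 := by
    rw [e1, e2] at ha
    linear_combination ha
  have hd : (a - b) ^ 2 * (b - c) ^ 2 * (c - a) ^ 2 = 0 := by
    rw [e1, e2] at hz
    have : (a - b) ^ 2 * (b - c) ^ 2 * (c - a) ^ 2 =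
      (a + b + c) ^ 2 * (a * b + b * c + c * a) ^ 2 - 4 * (a + b + c) ^ 3 * (a * b * c) -
        4 * (a * b + b * c + c * a) ^ 3 + 18 * (a + b + c) * (a * b + b * c + c * a) * (a * b * c)
        - 27 * (a * b * c) ^ 2 := by ring
    rw [this, e3]
    linear_combination hz
  have ha0 : a ≠ 0 := by rintro rfl; simp at e3
  have hb0 : b ≠ 0 := by rintro rfl; simp at e3
  have hc0 : c ≠ 0 := by rintro rfl; simp at e3
  have main : ∀ s u : ℂ, s ≠ 0 → s * s * u = 1 → x = s + s + u → y = s * s + s * u + u * s →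
      ∃ t : ℂ, t ≠ 0 ∧ par t = z := by
    intro s u hs h1 h2 h3
    have hu : u = 1 / s ^ 2 := by
      field_simp
      linear_combination h1
    refine ⟨s, hs, ?_⟩
    funext i
    fin_cases i
    · change 2 * s + 1 / s ^ 2 = x
      rw [h2, hu]; ring
    · change 2 / s + s ^ 2 = y
      rw [h3, hu]
      field_simp
      ring
  rcases mul_eq_zero.1 hd with h | h
  · rcases mul_eq_zero.1 h with h | h
    · have hab : a = b := by
        have := pow_eq_zero_iff (n := 2) (by norm_num) |>.1 h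
        linear_combination this
      subst hab
      exact main a c ha0 (by linear_combination e3) (by rw [e1]) (by rw [e2])
    · have hbc : b = c := by
        have := pow_eq_zero_iff (n := 2) (by norm_num) |>.1 h
        linear_combination this
      rw [← hbc] at e1 e2 e3
      exact main b a hb0 (by linear_combination e3) (by rw [e1]; ring) (by rw [e2]; ring)
  · have hca : c = a := by
      have := pow_eq_zero_iff (n := 2) (by norm_num) |>.1 h
      linear_combination this
    rw [hca] at e1 e2 e3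
    exact main a b ha0 (by linear_combination e3) (by rw [e1]; ring) (by rw [e2]; ring)

lemma par_inj (t s : ℂ) (ht : t ≠ 0) (hs : s ≠ 0) (h : par t = par s) : t = s := by
  have h0 : 2 * t + 1 / t ^ 2 = 2 * s + 1 / s ^ 2 := congrFun h 0
  have h1 : 2 / t + t ^ 2 = 2 / s + s ^ 2 := congrFun h 1
  by_contra hne
  -- the quadratic relation: `3 t² - 2 x t + y = 0`, `(t - s)² (…)`
  have k1 : (s - t) ^ 2 * (s - 1 / t ^ 2) = 0 := by
    have e : (s - t) ^ 2 * (s - 1 / t ^ 2) =
        s ^ 3 - (2 * t + 1 / t ^ 2) * s ^ 2 + (2 / t + t ^ 2) * s - 1 := by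
      field_simp
      ring
    rw [e, h0, h1]
    field_simp
    ring
  have k2 : (t - s) ^ 2 * (t - 1 / s ^ 2) = 0 := by
    have e : (t - s) ^ 2 * (t - 1 / s ^ 2) =
        t ^ 3 - (2 * s + 1 / s ^ 2) * t ^ 2 + (2 / s + s ^ 2) * t - 1 := by
      field_simp
      ring
    rw [e, ← h0, ← h1]
    field_simp
    ring
  have hst : s - t ≠ 0 := sub_ne_zero.2 fun h => hne h.symm
  have hts : t - s ≠ 0 := sub_ne_zero.2 hne
  have k1' : s = 1 / t ^ 2 := by
    rcases mul_eq_zero.1 k1 with h | h
    · exact absurd h (pow_ne_zero 2 hst)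
    · linear_combination h
  have k2' : t = 1 / s ^ 2 := by
    rcases mul_eq_zero.1 k2 with h | h
    · exact absurd h (pow_ne_zero 2 hts)
    · linear_combination h
  rw [← k1', ← k2'] at h0
  exact hne (by linear_combination h0)

/-- the relation recovering the parameter -/
lemma par_quad (t : ℂ) (ht : t ≠ 0) : (3 * t - par t 0) ^ 2 = par t 0 ^ 2 - 3 * par t 1 := by
  simp only [par, Matrix.cons_val_zero, Matrix.cons_val_one]
  field_simp
  ring

lemma par_lin (t : ℂ) (ht : t ≠ 0) :
    2 * (par t 0 ^ 2 - 3 * par t 1) * t = par t 0 * par t 1 - 9 := by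
  simp only [par, Matrix.cons_val_zero, Matrix.cons_val_one]
  field_simp
  ring

end Pool.Agent.Y210.DL
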