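import Pool.Agent.Y210.DL1
set_option autoImplicit false
open MvPolynomial Filter Topology

namespace Pool.Agent.Y210.DL

/-- the affine curve -/
abbrev Γ : Set (Fin 2 → ℂ) := {z : Fin 2 → ℂ | eval z F = 0}

/-- the parametrization as a map to the curve -/
noncomputable def parΓ (t : {t : ℂ // t ≠ 0}) : Γ := ⟨par t.1, par_mem t.1 t.2⟩

lemma continuous_parΓ : Continuous parΓ := by
  apply Continuous.subtype_mk
  apply continuous_pi
  intro i
  have h0 : Continuous fun t : {t : ℂ // t ≠ 0} => t.1 := continuous_subtype_val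
  have hne : ∀ t : {t : ℂ // t ≠ 0}, t.1 ≠ 0 := fun t => t.2
  fin_cases i
  · change Continuous fun t : {t : ℂ // t ≠ 0} => 2 * t.1 + 1 / t.1 ^ 2
    exact (continuous_const.mul h0).add
      (continuous_const.div (h0.pow 2) fun t => pow_ne_zero 2 (hne t))
  · change Continuous fun t : {t : ℂ // t ≠ 0} => 2 / t.1 + t.1 ^ 2
    exact (continuous_const.div h0 hne).add (h0.pow 2)

lemma bijective_parΓ : Function.Bijective parΓ := by
  constructor
  · intro t s h
    apply Subtype.ext
    exact par_inj t.1 s.1 t.2 s.2 (congrArg Subtype.val h)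
  · intro z
    obtain ⟨t, ht, h⟩ := par_surj z.1 z.2
    exact ⟨⟨t, ht⟩, Subtype.ext h⟩

/-- the parametrization as an equivalence -/
noncomputable def e : {t : ℂ // t ≠ 0} ≃ Γ := Equiv.ofBijective parΓ bijective_parΓ

/-- the parameter of a point -/
noncomputable def ψ (z : Γ) : ℂ := ((e.symm z : {t : ℂ // t ≠ 0}) : ℂ)

lemma ψ_ne (z : Γ) : ψ z ≠ 0 := (e.symm z).2

lemma par_ψ (z : Γ) : par (ψ z) = z.1 := by
  have h : e (e.symm z) = z := e.apply_symm_apply z
  exact congrArg Subtype.val h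

lemma ψ_quad (z : Γ) : (3 * ψ z - z.1 0) ^ 2 = z.1 0 ^ 2 - 3 * z.1 1 := by
  have h := par_quad (ψ z) (ψ_ne z)
  rwa [par_ψ] at h

lemma ψ_lin (z : Γ) : 2 * (z.1 0 ^ 2 - 3 * z.1 1) * ψ z = z.1 0 * z.1 1 - 9 := by
  have h := par_lin (ψ z) (ψ_ne z)
  rwa [par_ψ] at h

lemma continuous_ψ : Continuous ψ := by
  have c0 : Continuous fun z : Γ => z.1 0 := (continuous_apply 0).comp continuous_subtype_val
  have c1 : Continuous fun z : Γ => z.1 1 := (continuous_apply 1).comp continuous_subtype_val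
  have cd : Continuous fun z : Γ => z.1 0 ^ 2 - 3 * z.1 1 :=
    (c0.pow 2).sub (continuous_const.mul c1)
  rw [continuous_iff_continuousAt]
  intro z
  by_cases hz : z.1 0 ^ 2 - 3 * z.1 1 = 0
  · -- a cusp
    have h1 : Tendsto (fun w : Γ => ‖3 * ψ w - w.1 0‖ ^ 2) (𝓝 z) (𝓝 0) := by
      have h2 : (fun w : Γ => ‖3 * ψ w - w.1 0‖ ^ 2) =
          fun w : Γ => ‖w.1 0 ^ 2 - 3 * w.1 1‖ := by
        funext w
        rw [← norm_pow, ψ_quad]
      rw [h2]
      have h3 := (cd.norm.tendsto z)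
      simp only [hz, norm_zero] at h3
      exact h3
    have h4 : Tendsto (fun w : Γ => ‖3 * ψ w - w.1 0‖) (𝓝 z) (𝓝 0) := by
      have h5 := (Real.continuous_sqrt.tendsto 0).comp h1
      simp only [Real.sqrt_zero] at h5
      refine h5.congr fun w => ?_
      simp only [Function.comp]
      exact Real.sqrt_sq (norm_nonneg _)
    have h6 : Tendsto (fun w : Γ => 3 * ψ w - w.1 0) (𝓝 z) (𝓝 0) :=
      tendsto_zero_iff_norm_tendsto_zero.2 h4
    have h7 : 3 * ψ z - z.1 0 = 0 := by
      have := ψ_quad z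
      rw [hz] at this
      exact pow_eq_zero_iff (n := 2) (by norm_num) |>.1 this
    have h8 : Tendsto (fun w : Γ => ((3 * ψ w - w.1 0) + w.1 0) / 3) (𝓝 z)
        (𝓝 ((0 + z.1 0) / 3)) := (h6.add (c0.tendsto z)).div_const 3
    have h9 : (0 + z.1 0) / 3 = ψ z := by linear_combination (1 / 3 : ℂ) * (- h7)
    rw [h9] at h8
    exact h8.congr fun w => by ring
  · have h1 : ∀ᶠ w in 𝓝 z, w.1 0 ^ 2 - 3 * w.1 1 ≠ 0 := cd.continuousAt.eventually_ne hz
    have h2 : ContinuousAt (fun w : Γ => (w.1 0 * w.1 1 - 9) / (2 * (w.1 0 ^ 2 - 3 * w.1 1))) z :=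
      ((c0.mul c1).sub continuous_const).continuousAt.div
        (continuous_const.mul cd).continuousAt (mul_ne_zero two_ne_zero hz)
    refine h2.congr (h1.mono fun w hw => ?_)
    have h3 := ψ_lin w
    change (w.1 0 * w.1 1 - 9) / (2 * (w.1 0 ^ 2 - 3 * w.1 1)) = ψ w
    rw [← h3, mul_div_cancel_left₀]
    exact mul_ne_zero two_ne_zero hw

lemma continuous_e_symm : Continuous e.symm :=
  continuous_ψ.subtype_mk _

/-- the affine tricuspidal quartic is homeomorphic to the punctured plane -/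
noncomputable def eh : {t : ℂ // t ≠ 0} ≃ₜ Γ where
  toEquiv := e
  continuous_toFun := continuous_parΓ
  continuous_invFun := continuous_e_symm

/-- the first Betti number of the curve is at most one -/
lemma betti (x₀ : Γ) :
    Module.finrank ℤ (Additive (Abelianization (FundamentalGroup Γ x₀))) ≤ 1 := by
  have hcov := Complex.isAddQuotientCoveringMap_exp.homeomorph_comp eh
  obtain ⟨z, hz⟩ := hcov.surjective x₀
  have E := hcov.fundamentalGroupEquiv (x := x₀) ⟨z, hz⟩
  have hcyc : IsCyclic (FundamentalGroup Γ x₀) := by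
    have h1 : IsCyclic (Multiplicative (AddSubgroup.zmultiples (2 * Real.pi * Complex.I)))ᵐᵒᵖ :=
      isCyclic_of_surjective (MulEquiv.inv' _) (MulEquiv.inv' _).surjective
    exact isCyclic_of_surjective E.symm E.symm.surjective
  have hcyc2 : IsCyclic (Abelianization (FundamentalGroup Γ x₀)) :=
    isCyclic_of_surjective Abelianization.of QuotientGroup.mk_surjective
  obtain ⟨g, hg⟩ := hcyc2.exists_generator
  refine finrank_le_one (Additive.ofMul g) fun w => ?_
  obtain ⟨n, hn⟩ := Subgroup.mem_zpowers_iff.1 (hg w.toMul)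
  refine ⟨n, ?_⟩
  rw [← ofMul_zpow, hn]
  rfl

end Pool.Agent.Y210.DL
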