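import Pool.Agent.Y210.DL1
set_option autoImplicit false

namespace Pool.Agent.Y210.DL

open Polynomial in
/-- no polynomial `a(Y)` is a root of the discriminant, seen as a cubic in `x` -/
lemma no_root (a : ℂ[X])
    (h : a ^ 2 * X ^ 2 - 4 * a ^ 3 - 4 * X ^ 3 + 18 * a * X - 27 = 0) : False := by
  have h' : 4 * a ^ 3 = a ^ 2 * X ^ 2 + (- 4 * X ^ 3 + 18 * a * X - 27) := by
    linear_combination (-1 : ℂ[X]) * h
  have h4 : (4 : ℂ[X]) = C 4 := (map_ofNat C 4).symm
  have h18 : (18 : ℂ[X]) = C 18 := (map_ofNat C 18).symm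
  have h27 : (27 : ℂ[X]) = C 27 := (map_ofNat C 27).symm
  -- the degree of `a` is at most two
  have hdeg : a.natDegree ≤ 2 := by
    by_contra hcon
    push Not at hcon
    have e1 : (4 * a ^ 3).natDegree = 3 * a.natDegree := by
      rw [h4, natDegree_C_mul (by norm_num), natDegree_pow]
    have e2 : (a ^ 2 * X ^ 2 + (- 4 * X ^ 3 + 18 * a * X - 27)).natDegree ≤
        2 * a.natDegree + 2 := by
      refine natDegree_add_le_of_degree_le ?_ ?_
      · refine natDegree_mul_le.trans ?_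
        rw [natDegree_pow, natDegree_X_pow]
      · refine (natDegree_sub_le _ _).trans
          (max_le ((natDegree_add_le _ _).trans (max_le ?_ ?_)) ?_)
        · rw [neg_mul, natDegree_neg, h4]
          refine natDegree_C_mul_le _ _ |>.trans ?_
          rw [natDegree_X_pow]
          omega
        · rw [h18, mul_assoc]
          refine natDegree_C_mul_le _ _ |>.trans ?_
          refine natDegree_mul_le.trans ?_
          rw [natDegree_X]
          omega
        · rw [h27, natDegree_C]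
          omega
    rw [← h', e1] at e2
    omega
  -- write `a = p X² + q X + r`
  obtain ⟨p, q, r, ha⟩ : ∃ p q r : ℂ, a = C p * X ^ 2 + C q * X + C r := by
    refine ⟨a.coeff 2, a.coeff 1, a.coeff 0, ?_⟩
    have := a.as_sum_range_C_mul_X_pow' (n := 3) (by omega)
    rw [this, Finset.sum_range_succ, Finset.sum_range_succ, Finset.sum_range_succ,
      Finset.sum_range_zero]
    simp
    ring
  have hexp : a ^ 2 * X ^ 2 - 4 * a ^ 3 - 4 * X ^ 3 + 18 * a * X - 27 =
      C (p ^ 2 - 4 * p ^ 3) * X ^ 6 + C (2 * p * q - 12 * p ^ 2 * q) * X ^ 5 +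
      C (2 * p * r + q ^ 2 - 12 * p ^ 2 * r - 12 * p * q ^ 2) * X ^ 4 +
      C (2 * q * r - 4 * q ^ 3 - 24 * p * q * r - 4 + 18 * p) * X ^ 3 +
      C (r ^ 2 - 12 * p * r ^ 2 - 12 * q ^ 2 * r + 18 * q) * X ^ 2 +
      C (18 * r - 12 * q * r ^ 2) * X + C (-4 * r ^ 3 - 27) := by
    rw [ha, h4, h18, h27]
    simp only [map_add, map_sub, map_mul, map_pow, map_neg, map_ofNat]
    ring
  rw [hexp] at h
  have c6 := congrArg (fun f => coeff f 6) h
  have c5 := congrArg (fun f => coeff f 5) h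
  have c4 := congrArg (fun f => coeff f 4) h
  have c3 := congrArg (fun f => coeff f 3) h
  simp only [coeff_add, coeff_C_mul, coeff_X_pow, coeff_C, coeff_X, coeff_zero] at c6 c5 c4 c3
  norm_num at c6 c5 c4 c3
  -- `p = 0` or `p = 1/4`
  have hp : p ^ 2 * (1 - 4 * p) = 0 := by linear_combination c6
  rcases mul_eq_zero.1 hp with hp | hp
  · have hp0 : p = 0 := pow_eq_zero_iff (n := 2) (by norm_num) |>.1 hp
    rw [hp0] at c4 c3
    have hq : q ^ 2 = 0 := by linear_combination c4
    have hq0 : q = 0 := pow_eq_zero_iff (n := 2) (by norm_num) |>.1 hq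
    rw [hq0] at c3
    norm_num at c3
  · have hp0 : p = 1 / 4 := by linear_combination (-1 / 4 : ℂ) * hp
    rw [hp0] at c5 c4 c3
    have hq0 : q = 0 := by linear_combination (-4 : ℂ) * c5
    rw [hq0] at c4 c3
    norm_num at c3

open MvPolynomial in
lemma CC (n : ℕ) [n.AtLeastTwo] : (OfNat.ofNat n : Polynomial (MvPolynomial (Fin 1) ℂ)) =
    Polynomial.C (C (OfNat.ofNat n)) := by
  rw [map_ofNat, map_ofNat]

open MvPolynomial in
lemma irreducible_F : Irreducible F := by
  have hE := (MulEquiv.irreducible_iff (finSuccEquiv ℂ 1).toMulEquiv (x := F))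
  rw [← hE]
  set Y : MvPolynomial (Fin 1) ℂ := X 0 with hY
  -- the image as a polynomial in `x` over `ℂ[y]`
  have hF : (finSuccEquiv ℂ 1).toMulEquiv F =
      Polynomial.C (-4) * (Polynomial.X ^ 3 - Polynomial.C (C (1 / 4) * Y ^ 2) * Polynomial.X ^ 2 -
        Polynomial.C (C (9 / 2) * Y) * Polynomial.X + Polynomial.C (Y ^ 3 + C (27 / 4))) := by
    change finSuccEquiv ℂ 1 F = _
    have e0 : finSuccEquiv ℂ 1 (X 0) = Polynomial.X := finSuccEquiv_X_zero
    have e1 : finSuccEquiv ℂ 1 (X 1) = Polynomial.C Y := finSuccEquiv_X_succ (j := 0)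
    rw [F]
    simp only [map_add, map_sub, map_mul, map_pow, map_ofNat, e0, e1]
    have k1 : (4 : Polynomial (MvPolynomial (Fin 1) ℂ)) * Polynomial.C (C (1 / 4)) = 1 := by
      rw [CC 4, ← map_mul, ← map_mul]
      norm_num
    have k2 : (4 : Polynomial (MvPolynomial (Fin 1) ℂ)) * Polynomial.C (C (9 / 2)) = 18 := by
      rw [CC 4, CC 18, ← map_mul, ← map_mul]
      congr 2
      norm_num
    have k3 : (4 : Polynomial (MvPolynomial (Fin 1) ℂ)) * Polynomial.C (C (27 / 4)) = 27 := by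
      rw [CC 4, CC 27, ← map_mul, ← map_mul]
      congr 2
      norm_num
    have k0 : (Polynomial.C (-4) : Polynomial (MvPolynomial (Fin 1) ℂ)) = -4 := by
      rw [map_neg, map_ofNat]
    rw [k0]
    linear_combination (-(Polynomial.C Y) ^ 2 * Polynomial.X ^ 2) * k1
      - (Polynomial.C Y * Polynomial.X) * k2 + k3
  rw [hF]
  have hu : IsUnit (Polynomial.C (-4) : Polynomial (MvPolynomial (Fin 1) ℂ)) := by
    apply Polynomial.isUnit_C.2
    rw [show (-4 : MvPolynomial (Fin 1) ℂ) = C (-4) by rw [map_neg, map_ofNat]]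
    exact (isUnit_iff_ne_zero.2 (by norm_num : (-4 : ℂ) ≠ 0)).map C
  rw [irreducible_isUnit_mul hu]
  set P : Polynomial (MvPolynomial (Fin 1) ℂ) :=
    Polynomial.X ^ 3 - Polynomial.C (C (1 / 4) * Y ^ 2) * Polynomial.X ^ 2 -
        Polynomial.C (C (9 / 2) * Y) * Polynomial.X + Polynomial.C (Y ^ 3 + C (27 / 4)) with hP
  have hmon : P.Monic := by
    rw [hP]
    monicity!
  have hnd : P.natDegree = 3 := by
    rw [hP]
    compute_degree!
  rw [hmon.irreducible_iff_roots_eq_zero_of_degree_le_three (by omega) (by omega)]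
  rw [Multiset.eq_zero_iff_forall_notMem]
  intro a ha
  have hroot : P.eval a = 0 := Polynomial.isRoot_of_mem_roots ha
  let φ : MvPolynomial (Fin 1) ℂ →ₐ[ℂ] Polynomial ℂ := aeval fun _ => Polynomial.X
  have h1 := congrArg φ hroot
  rw [hP] at h1
  simp only [Polynomial.eval_add, Polynomial.eval_sub, Polynomial.eval_mul, Polynomial.eval_pow,
    Polynomial.eval_C, Polynomial.eval_X, map_add, map_sub, map_mul, map_pow, map_zero] at h1
  have hφY : φ Y = Polynomial.X := by
    simp [φ, hY]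
  have hφC : ∀ c : ℂ, φ (C c) = Polynomial.C c := by
    intro c
    simp [φ]
  rw [hφY, hφC, hφC, hφC] at h1
  refine no_root (φ a) ?_
  have k1 : (4 : Polynomial ℂ) * Polynomial.C (1 / 4) = 1 := by
    rw [← map_ofNat (Polynomial.C : ℂ →+* Polynomial ℂ) 4, ← map_mul]
    norm_num
  have k2 : (4 : Polynomial ℂ) * Polynomial.C (9 / 2) = 18 := by
    rw [← map_ofNat (Polynomial.C : ℂ →+* Polynomial ℂ) 4,
      ← map_ofNat (Polynomial.C : ℂ →+* Polynomial ℂ) 18, ← map_mul]
    congr 1
    norm_num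
  have k3 : (4 : Polynomial ℂ) * Polynomial.C (27 / 4) = 27 := by
    rw [← map_ofNat (Polynomial.C : ℂ →+* Polynomial ℂ) 4,
      ← map_ofNat (Polynomial.C : ℂ →+* Polynomial ℂ) 27, ← map_mul]
    congr 1
    norm_num
  linear_combination (-4 : Polynomial ℂ) * h1 - (φ a) ^ 2 * Polynomial.X ^ 2 * k1
    - (φ a) * Polynomial.X * k2 + k3

end Pool.Agent.Y210.DL
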